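import Pool.Agent.Helper5.SR.St2

set_option autoImplicit false

namespace Pool.Agent.Helper38.SR2

open Complex MeasureTheory Set Metric Filter Topology
open scoped Real
open Pool.Agent.Helper60.Rel (LH tc Admissible ClassS)
open Helper5.SR Pool.Agent.Helper51.LT

private lemma pt_step {Q : ℕ} (hQ : (Q : ℝ) ≠ 0) (n i : ℕ) (τ : ℝ) :
    (Q : ℂ) * pt Q (n + i + 1) (τ / Q ^ (i + 1)) = pt Q (n + i) (τ / Q ^ i) := by
  have hQc : (Q : ℂ) ≠ 0 := by exact_mod_cast hQ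
  unfold pt
  push_cast
  field_simp
  ring

private lemma pt_mem {Q : ℕ} (hQ : 0 < (Q : ℝ)) (k : ℕ) (τ : ℝ) : pt Q k τ ∈ LH := by
  have h : 0 < ((Q : ℝ) ^ k)⁻¹ := by positivity
  have h1 : (pt Q k τ).re = -((Q : ℝ) ^ k)⁻¹ := by
    unfold pt
    simp only [add_re, neg_re, ofReal_re, mul_re, I_re, ofReal_im, I_im]
    ring
  show (pt Q k τ).re < 0
  rw [h1]
  linarith

/-- module TW3 -/
theorem hTw3 (hTw1 : StTw1) : StTw3 := by
  intro C hC
  set W : ℝ := C + 7 with hW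
  have hW8 : 8 ≤ W := by linarith
  have hCW : 8 ≤ C * W := by nlinarith
  refine ⟨⌈8 * C * W⌉₊, 8 * C * W ^ 2, ?_, by positivity, ?_⟩
  · have h1 : (64 : ℝ) ≤ 8 * C * W := by nlinarith
    have h2 := Nat.le_ceil (8 * C * W)
    have h3 : (2 : ℝ) ≤ (⌈8 * C * W⌉₊ : ℝ) := by linarith
    exact_mod_cast h3
  intro κ β Q Φ hQ hTM k a τ hak hdeep him0 him1
  obtain ⟨hLC, ⟨hκ1, hκC, hT⟩, -⟩ := hTM
  have hQr : 8 * C * W ≤ (Q : ℝ) := (Nat.le_ceil _).trans (by exact_mod_cast hQ)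
  have hQ64 : (64 : ℝ) ≤ Q := by nlinarith
  have hQ0 : (0 : ℝ) < Q := by linarith
  have hQ2 : 2 ≤ Q := by
    have : (2 : ℝ) ≤ Q := by linarith
    exact_mod_cast this
  have hQc : (Q : ℂ) ≠ 0 := by exact_mod_cast hQ0.ne'
  obtain ⟨n, rfl⟩ := Nat.exists_eq_add_of_le' hak
  rw [Nat.add_sub_cancel] at hdeep him0 him1 ⊢
  set w : ℂ := TW Φ Q n (pt Q n τ) with hw
  -- bound for w
  have hwW : ‖w‖ ≤ W := by
    have h1 : |w.re| ≤ C := by
      rw [abs_le]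
      constructor
      · exact hdeep.1
      · have : -(1 / C) ≤ 0 := by
          have : 0 < 1 / C := by positivity
          linarith
        linarith [hdeep.2]
    have h2 : |w.im| ≤ 2 * π := by
      rw [abs_le]; constructor <;> linarith
    have h3 : 2 * π ≤ 7 := by linarith [Real.pi_lt_d2]
    calc ‖w‖ ≤ |w.re| + |w.im| := Complex.norm_le_abs_re_add_abs_im w
      _ ≤ C + 7 := by linarith
  set lam : ℝ := κ / Q with hlam
  have hκ0 : 0 < κ := by linarith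
  have hlam0 : 0 < lam := by positivity
  have hlamh : lam ≤ 1 / 2 := by
    rw [hlam, div_le_iff₀ hQ0]
    nlinarith
  have hQlam : 1 / (Q : ℝ) ≤ lam := by
    rw [hlam]
    exact div_le_div_of_nonneg_right hκ1 hQ0.le
  -- the orbit
  set y : ℕ → ℂ := fun i => TW Φ Q (n + i) (pt Q (n + i) (τ / Q ^ i)) with hy
  have hy0 : y 0 = w := by simp [hy, hw]
  have hyLH : ∀ i, y i ∈ LH := by
    intro i
    have h1 := (hTw1 C Q Φ (by linarith) hQ2 hLC (n + i)).1.2.2.2.1 _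
      (pt_mem hQ0 (n + i) (τ / Q ^ i))
    have h2 : (pt Q (n + i) (τ / Q ^ i)).re < 0 := pt_mem hQ0 _ _
    show (y i).re < 0
    exact lt_of_le_of_lt h1 h2
  have hystep : ∀ i, y (i + 1) = Φ (y i / Q) := by
    intro i
    have h1 := pt_step hQ0.ne' n i τ
    show TW Φ Q (n + i + 1) (pt Q (n + i + 1) (τ / Q ^ (i + 1))) = _
    show Φ (TW Φ Q (n + i) ((Q : ℂ) * pt Q (n + i + 1) (τ / Q ^ (i + 1))) / Q) = _
    rw [h1]
  set D : ℕ → ℂ := fun i => deriv (TW Φ Q (n + i)) (pt Q (n + i) (τ / Q ^ i)) with hD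
  have hDstep : ∀ i, D (i + 1) = deriv Φ (y i / Q) * D i := by
    intro i
    have h1 := pt_step hQ0.ne' n i τ
    have h2 := (hTw1 C Q Φ (by linarith) hQ2 hLC (n + i)).2 _
      (pt_mem hQ0 (n + i + 1) (τ / Q ^ (i + 1)))
    show deriv (TW Φ Q (n + i + 1)) (pt Q (n + i + 1) (τ / Q ^ (i + 1))) = _
    rw [h2, h1]
  have hdivLH : ∀ i, y i / Q ∈ LH := by
    intro i
    have h1 : (y i).re < 0 := hyLH i
    show (y i / Q).re < 0
    have h2 : (y i / (Q : ℂ)).re = (y i).re / Q := by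
      rw [show (Q : ℂ) = ((Q : ℝ) : ℂ) by norm_cast, Complex.div_ofReal_re]
    rw [h2]
    exact div_neg_of_neg_of_pos h1 hQ0
  -- the main estimate
  have hpowle : ∀ i : ℕ, lam ^ i ≤ (1 / 2 : ℝ) ^ i := fun i =>
    pow_le_pow_left₀ hlam0.le hlamh i
  have hTi : ∀ i : ℕ, ‖y i‖ ≤ 2 * W * lam ^ i →
      ‖Φ (y i / Q) - κ * (y i / Q)‖ ≤ C * (2 * W * lam ^ i / Q) ^ 2 ∧
      ‖deriv Φ (y i / Q) - κ‖ ≤ C * (2 * W * lam ^ i / Q) := by
    intro i hb
    have hn : ‖y i / Q‖ ≤ 2 * W * lam ^ i / Q := by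
      rw [norm_div, Complex.norm_natCast]
      exact div_le_div_of_nonneg_right hb hQ0.le
    have hn1 : ‖y i / Q‖ ≤ 1 / C := by
      refine hn.trans ?_
      have h1 : lam ^ i ≤ 1 := pow_le_one₀ hlam0.le (by linarith)
      rw [div_le_div_iff₀ hQ0 (by linarith)]
      have h2 : 2 * W * lam ^ i ≤ 2 * W := by nlinarith
      calc 2 * W * lam ^ i * C ≤ 2 * W * C := mul_le_mul_of_nonneg_right h2 (by linarith)
        _ ≤ 8 * C * W := by nlinarith
        _ ≤ 1 * Q := by linarith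
    obtain ⟨h1, h2⟩ := hT _ (hdivLH i) hn1
    refine ⟨h1.trans ?_, h2.trans ?_⟩
    · exact mul_le_mul_of_nonneg_left (pow_le_pow_left₀ (norm_nonneg _) hn 2) (by linarith)
    · exact mul_le_mul_of_nonneg_left hn (by linarith)
  have hbd : ∀ i : ℕ, ‖y i - ((lam ^ i : ℝ) : ℂ) * w‖ ≤
      8 * C * W ^ 2 / Q * lam ^ i * (1 - (1 / 2) ^ i) → ‖y i‖ ≤ 2 * W * lam ^ i := by
    intro i ih
    have hli : 0 < lam ^ i := pow_pos hlam0 i
    have hhi : 0 < (1 / 2 : ℝ) ^ i := by positivity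
    have h1 : ‖y i‖ ≤ ‖y i - ((lam ^ i : ℝ) : ℂ) * w‖ + ‖((lam ^ i : ℝ) : ℂ) * w‖ := by
      have := norm_add_le (y i - ((lam ^ i : ℝ) : ℂ) * w) (((lam ^ i : ℝ) : ℂ) * w)
      rwa [sub_add_cancel] at this
    have h2 : ‖((lam ^ i : ℝ) : ℂ) * w‖ ≤ lam ^ i * W := by
      rw [norm_mul, Complex.norm_real, Real.norm_of_nonneg hli.le]
      exact mul_le_mul_of_nonneg_left hwW hli.le
    have h3 : 8 * C * W ^ 2 / Q * lam ^ i * (1 - (1 / 2) ^ i) ≤ W * lam ^ i := by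
      have h4 : 8 * C * W ^ 2 / Q ≤ W := by
        rw [div_le_iff₀ hQ0]
        nlinarith
      have h5 : (1 - (1 / 2 : ℝ) ^ i) ≤ 1 := by linarith
      have h6 : 0 ≤ 8 * C * W ^ 2 / Q * lam ^ i := by positivity
      calc 8 * C * W ^ 2 / Q * lam ^ i * (1 - (1 / 2) ^ i)
          ≤ 8 * C * W ^ 2 / Q * lam ^ i * 1 := mul_le_mul_of_nonneg_left h5 h6
        _ ≤ W * lam ^ i := by rw [mul_one]; exact mul_le_mul_of_nonneg_right h4 hli.le
    linarith
  have hcont : ∀ i : ℕ, 0 < lam ^ i → ‖y i‖ ≤ 2 * W * lam ^ i →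
      ‖y i - ((lam ^ i : ℝ) : ℂ) * w‖ ≤ 8 * C * W ^ 2 / Q * lam ^ i * (1 - (1 / 2) ^ i) →
      ‖y (i + 1) - ((lam ^ (i + 1) : ℝ) : ℂ) * w‖ ≤
        8 * C * W ^ 2 / Q * lam ^ (i + 1) * (1 - (1 / 2) ^ (i + 1)) := by
    intro i hli hb ih
    have h1 := (hTi i hb).1
    have h2 : y (i + 1) - ((lam ^ (i + 1) : ℝ) : ℂ) * w =
        (Φ (y i / Q) - κ * (y i / Q)) + (lam : ℂ) * (y i - ((lam ^ i : ℝ) : ℂ) * w) := by
      rw [hystep, hlam]
      push_cast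
      ring
    have h3 : ‖(lam : ℂ) * (y i - ((lam ^ i : ℝ) : ℂ) * w)‖ ≤
        lam * (8 * C * W ^ 2 / Q * lam ^ i * (1 - (1 / 2) ^ i)) := by
      rw [norm_mul, Complex.norm_real, Real.norm_of_nonneg hlam0.le]
      exact mul_le_mul_of_nonneg_left ih hlam0.le
    have h4 : C * (2 * W * lam ^ i / Q) ^ 2 ≤
        4 * C * W ^ 2 / Q * lam ^ (i + 1) * (1 / 2) ^ i := by
      have h5 : lam ^ i / Q ≤ lam ^ (i + 1) := by
        rw [pow_succ, div_eq_mul_one_div]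
        exact mul_le_mul_of_nonneg_left hQlam hli.le
      have h6 : C * (2 * W * lam ^ i / Q) ^ 2 = 4 * C * W ^ 2 / Q * (lam ^ i / Q) * lam ^ i := by
        field_simp
        ring
      rw [h6]
      have h7 : 0 ≤ 4 * C * W ^ 2 / Q := by positivity
      exact mul_le_mul (mul_le_mul_of_nonneg_left h5 h7) (hpowle i) hli.le (by positivity)
    rw [h2]
    refine (norm_add_le _ _).trans ?_
    refine (add_le_add (h1.trans h4) h3).trans (le_of_eq ?_)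
    rw [pow_succ, pow_succ]
    ring
  have hmain : ∀ i : ℕ, ‖y i - ((lam ^ i : ℝ) : ℂ) * w‖ ≤
      8 * C * W ^ 2 / Q * lam ^ i * (1 - (1 / 2) ^ i) := by
    intro i
    induction i with
    | zero => simp [hy0]
    | succ i ih =>
      exact hcont i (pow_pos hlam0 i) (hbd i ih) ih
  have hb : ∀ i, ‖y i‖ ≤ 2 * W * lam ^ i := fun i => hbd i (hmain i)
  have hder : ∀ i : ℕ, κ ^ i * ‖D 0‖ * (1 - 4 * C * W / Q * (1 - (1 / 2) ^ i)) ≤ ‖D i‖ := by
    intro i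
    induction i with
    | zero => simp
    | succ i ih =>
      have hhi : 0 < (1 / 2 : ℝ) ^ i := by positivity
      have hh1 : (1 / 2 : ℝ) ^ i ≤ 1 := pow_le_one₀ (by norm_num) (by norm_num)
      have h1 := (hTi i (hb i)).2
      have hcq : 0 ≤ 2 * C * W / Q := by positivity
      have hcq1 : 2 * C * W / Q ≤ 1 / 4 := by
        rw [div_le_iff₀ hQ0]; linarith
      have h2 : C * (2 * W * lam ^ i / Q) ≤ 2 * C * W / Q * (1 / 2) ^ i := by
        have h3 : C * (2 * W * lam ^ i / Q) = 2 * C * W / Q * lam ^ i := by ring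
        rw [h3]
        exact mul_le_mul_of_nonneg_left (hpowle i) hcq
      set x : ℝ := 2 * C * W / Q * (1 / 2) ^ i with hx
      have hx0 : 0 ≤ x := by positivity
      have hx1 : x ≤ 1 / 4 := by nlinarith
      have h4 : κ * (1 - x) ≤ ‖deriv Φ (y i / Q)‖ := by
        have h5 : ‖(κ : ℂ)‖ ≤ ‖deriv Φ (y i / Q)‖ + ‖deriv Φ (y i / Q) - κ‖ := by
          have := norm_sub_le (deriv Φ (y i / Q)) (deriv Φ (y i / Q) - κ)
          rwa [sub_sub_cancel] at this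
        rw [Complex.norm_real, Real.norm_of_nonneg hκ0.le] at h5
        nlinarith
      rw [hDstep, norm_mul]
      have h6 : 4 * C * W / Q * (1 - (1 / 2) ^ (i + 1)) =
          4 * C * W / Q * (1 - (1 / 2) ^ i) + x := by
        rw [hx, pow_succ]; ring
      set z : ℝ := 4 * C * W / Q * (1 - (1 / 2) ^ i) with hz
      have hz0 : 0 ≤ z := by
        have : 0 ≤ 4 * C * W / Q := by positivity
        exact mul_nonneg this (by linarith)
      rw [h6]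
      have hK : 0 ≤ κ ^ i * ‖D 0‖ := by positivity
      have h7 : κ ^ (i + 1) * ‖D 0‖ * (1 - (z + x)) ≤ κ * (1 - x) * (κ ^ i * ‖D 0‖ * (1 - z)) := by
        have h8 : (1 - (z + x)) ≤ (1 - x) * (1 - z) := by nlinarith
        have h9 : 0 ≤ κ * (κ ^ i * ‖D 0‖) := by positivity
        calc κ ^ (i + 1) * ‖D 0‖ * (1 - (z + x)) = κ * (κ ^ i * ‖D 0‖) * (1 - (z + x)) := by
              rw [pow_succ]; ring
          _ ≤ κ * (κ ^ i * ‖D 0‖) * ((1 - x) * (1 - z)) := mul_le_mul_of_nonneg_left h8 h9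
          _ = κ * (1 - x) * (κ ^ i * ‖D 0‖ * (1 - z)) := by ring
      have h10 : 0 ≤ κ * (1 - x) := mul_nonneg hκ0.le (by linarith)
      calc κ ^ (i + 1) * ‖D 0‖ * (1 - (z + x)) ≤ κ * (1 - x) * (κ ^ i * ‖D 0‖ * (1 - z)) := h7
        _ ≤ κ * (1 - x) * ‖D i‖ := mul_le_mul_of_nonneg_left ih h10
        _ ≤ ‖deriv Φ (y i / Q)‖ * ‖D i‖ := mul_le_mul_of_nonneg_right h4 (norm_nonneg _)
  refine ⟨?_, ?_⟩
  · have h1 := hmain a
    have hla : 0 < lam ^ a := pow_pos hlam0 a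
    have h2 : 8 * C * W ^ 2 / Q * lam ^ a * (1 - (1 / 2) ^ a) ≤ 8 * C * W ^ 2 / Q * lam ^ a := by
      have h5 : (1 - (1 / 2 : ℝ) ^ a) ≤ 1 := by
        have : 0 < (1 / 2 : ℝ) ^ a := by positivity
        linarith
      have h6 : 0 ≤ 8 * C * W ^ 2 / Q * lam ^ a := by positivity
      calc 8 * C * W ^ 2 / Q * lam ^ a * (1 - (1 / 2) ^ a)
          ≤ 8 * C * W ^ 2 / Q * lam ^ a * 1 := mul_le_mul_of_nonneg_left h5 h6
        _ = 8 * C * W ^ 2 / Q * lam ^ a := mul_one _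
    exact h1.trans h2
  · have h1 := hder a
    have h2 : D 0 = deriv (TW Φ Q n) (pt Q n τ) := by simp [hD]
    rw [h2] at h1
    have h3 : 1 / 2 ≤ 1 - 4 * C * W / Q * (1 - (1 / 2) ^ a) := by
      have h4 : 4 * C * W / Q ≤ 1 / 2 := by
        rw [div_le_iff₀ hQ0]; linarith
      have h5 : (1 - (1 / 2 : ℝ) ^ a) ≤ 1 := by
        have : 0 < (1 / 2 : ℝ) ^ a := by positivity
        linarith
      have h6 : 0 ≤ 4 * C * W / Q := by positivity
      have h7 : 4 * C * W / Q * (1 - (1 / 2) ^ a) ≤ 4 * C * W / Q * 1 :=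
        mul_le_mul_of_nonneg_left h5 h6
      linarith
    have h8 : 0 ≤ κ ^ a * ‖deriv (TW Φ Q n) (pt Q n τ)‖ := by positivity
    have h9 : κ ^ a * ‖deriv (TW Φ Q n) (pt Q n τ)‖ * (1 / 2) ≤ ‖D a‖ :=
      (mul_le_mul_of_nonneg_left h3 h8).trans h1
    show κ ^ a * ‖deriv (TW Φ Q n) (pt Q n τ)‖ ≤ 2 * ‖D a‖
    linarith

end Pool.Agent.Helper38.SR2
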